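import Mathlib
import Pool.Agent.MP_e20151_nt.Sound
import Pool.Agent.MP_e20151_nt.All

/-- For `n = 16331` none of the numbers `2 ^ n ± 2 ^ k ± 1`, `0 ≤ k < n`, is prime. -/
theorem Pool.Agent.Results.MP_e20151_nt.Counterexample.result :
    ∃ n : ℕ, n = 16331 ∧ 1 ≤ n ∧ ∀ k : ℕ, k < n →
      ¬ Prime ((2 : ℤ) ^ n + 2 ^ k + 1) ∧ ¬ Prime ((2 : ℤ) ^ n + 2 ^ k - 1) ∧
      ¬ Prime ((2 : ℤ) ^ n - 2 ^ k + 1) ∧ ¬ Prime ((2 : ℤ) ^ n - 2 ^ k - 1) :=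
  ⟨16331, rfl, by norm_num, Pool.Agent.MP_e20151_nt.Seg.soundInt Pool.Agent.MP_e20151_nt.allSeg⟩
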